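import Pool.Agent.Q324.LF.Generic

/-!
# Solutions among the constructed integers
-/

namespace Pool.Agent.Q324.LF

open Finset

/-- the element is a vertex or an edge (written increasingly) -/
def Good (n : ℕ) : El → Prop
  | Sum.inl v => v < n
  | Sum.inr p => p.1 < p.2 ∧ p.2 < n

theorem Good.small {n : ℕ} {x : El} (h : Good n x) : Small n x := by
  cases x with
  | inl v => exact h
  | inr p => exact ⟨h.1.trans h.2, h.2⟩

/-- indicator function of `w` -/
def ind (w : ℕ) : ℕ → ℤ := fun v => if v = w then 1 else 0

theorem W_ind_nonneg {al be b : ℕ} (w : ℕ) (x : El) : 0 ≤ W al be b (ind w) x := by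
  have h : ∀ v, 0 ≤ ind w v := by
    intro v
    unfold ind
    split_ifs <;> norm_num
  cases x with
  | inl v => exact mul_nonneg (by positivity) (h v)
  | inr p => exact add_nonneg (mul_nonneg (by positivity) (h _)) (mul_nonneg (by positivity) (h _))

/-- Elements whose support contains only `u`. -/
theorem eq_inl_of_ind {n al be b u : ℕ} (hal : 0 < al) (hbe : 0 < be) (hb : 0 < b) {x : El}
    (hx : Good n x) (h : ∀ w, w ≠ u → W al be b (ind w) x = 0) : x = Sum.inl u := by
  cases x with
  | inl v =>
    by_contra hne
    have h1 := h v (fun h => hne (by rw [h]))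
    simp [W, ind] at h1
    omega
  | inr p =>
    exfalso
    obtain ⟨p, q⟩ := p
    have hpq : p < q := hx.1
    by_cases hp : p = u
    · have h1 := h q (by omega)
      simp only [W, ind, if_true] at h1
      rw [if_neg (by omega)] at h1
      simp at h1
      omega
    · have h1 := h p hp
      simp only [W, ind, if_true] at h1
      rw [if_neg (by omega)] at h1
      simp at h1
      omega

/-- Elements whose support is contained in the support of an edge. -/
theorem eq_of_ind {n al be b u v : ℕ} (hal : 0 < al) (hbe : 0 < be) (hb : 0 < b) (huv : u < v)
    {x : El} (hx : Good n x) (h : ∀ w, w ≠ u → w ≠ v → W al be b (ind w) x = 0) :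
    x = Sum.inl u ∨ x = Sum.inl v ∨ x = Sum.inr (u, v) := by
  cases x with
  | inl w =>
    by_cases h1 : w = u
    · exact Or.inl (by rw [h1])
    · by_cases h2 : w = v
      · exact Or.inr (Or.inl (by rw [h2]))
      · exfalso
        have h3 := h w h1 h2
        simp [W, ind] at h3
        omega
  | inr p =>
    obtain ⟨p, q⟩ := p
    have hpq : p < q := hx.1
    have hp : p = u ∨ p = v := by
      by_contra hne
      have h1 := h p (by omega) (by omega)
      simp only [W, ind, if_true] at h1
      rw [if_neg (by omega)] at h1
      simp at h1
      omega
    have hq : q = u ∨ q = v := by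
      by_contra hne
      have h1 := h q (by omega) (by omega)
      simp only [W, ind, if_true] at h1
      rw [if_neg (by omega)] at h1
      simp at h1
      omega
    have : p = u ∧ q = v := by omega
    exact Or.inr (Or.inr (by rw [this.1, this.2]))

/-- Different elements have different formal values. -/
theorem formal_inj {n al be b : ℕ} (hal : 0 < al) (hbe : 0 < be) (hb : 0 < b) {x y : El}
    (hx : Good n x) (hy : Good n y)
    (h : ∀ w, W al be b (ind w) x = W al be b (ind w) y) : x = y := by
  cases y with
  | inl u =>
    refine eq_inl_of_ind hal hbe hb hx fun w hw => ?_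
    rw [h w]
    simp only [W, ind]
    rw [if_neg (by omega), mul_zero]
  | inr p =>
    obtain ⟨u, v⟩ := p
    have huv : u < v := hy.1
    rcases eq_of_ind hal hbe hb huv hx (fun w hw1 hw2 => by
      rw [h w]
      simp only [W, ind]
      rw [if_neg (by omega), if_neg (by omega), mul_zero, mul_zero, add_zero]) with h1 | h1 | h1
    · exfalso
      have h2 := h v
      rw [h1] at h2
      simp only [W, ind, if_true] at h2
      rw [if_neg (by omega)] at h2
      simp at h2
      omega
    · exfalso
      have h2 := h u
      rw [h1] at h2
      simp only [W, ind, if_true] at h2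
      rw [if_neg (by omega)] at h2
      simp at h2
      omega
    · exact h1

section

variable {l : ℕ} {a : Fin l → ℕ} {b al be n : ℕ}

/-- The formal case analysis. -/
theorem formal_cases (ha : ∀ i, 0 < a i) (hb : 0 < b) (hal : 0 < al) (hbe : 0 < be)
    {z : Option (Fin l) → El} (hz : ∀ i, Good n (z i))
    (h : ∀ w, Lam al be b (coef a b) z (ind w) = 0) :
    ((∀ i j, z i = z j) ∧ ∑ i, coef a b i = 0) ∨
      ∃ u v, z none = Sum.inr (u, v) ∧ (∃ i, z i = Sum.inl u) ∧ ∃ i, z i = Sum.inl v := by
  have h' : ∀ w, ∑ i, (a i : ℤ) * W al be b (ind w) (z (some i)) =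
      b * W al be b (ind w) (z none) := by
    intro w
    have := h w
    unfold Lam at this
    rw [Fintype.sum_option] at this
    simp only [coef] at this
    linarith
  have hzero : ∀ w, W al be b (ind w) (z none) = 0 → ∀ i, W al be b (ind w) (z i) = 0 := by
    intro w hw i
    cases i with
    | none => exact hw
    | some i =>
      have h1 := h' w
      rw [hw, mul_zero] at h1
      rw [Finset.sum_eq_zero_iff_of_nonneg (fun i _ =>
        mul_nonneg (by positivity) (W_ind_nonneg w _))] at h1
      have h2 := h1 i (mem_univ _)
      have h3 : (a i : ℤ) ≠ 0 := by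
        have := ha i
        omega
      exact (mul_eq_zero.1 h2).resolve_left h3
  cases hn : z none with
  | inl u =>
    left
    have hall : ∀ i, z i = Sum.inl u := by
      intro i
      refine eq_inl_of_ind hal hbe hb (hz i) fun w hw => hzero w ?_ i
      rw [hn]
      simp only [W, ind]
      rw [if_neg (by omega), mul_zero]
    refine ⟨fun i j => by rw [hall i, hall j], ?_⟩
    have h1 := h u
    unfold Lam at h1
    have h2 : ∀ i, W al be b (ind u) (z i) = b := by
      intro i
      rw [hall i]
      simp [W, ind]
    simp only [h2] at h1
    rw [← Finset.sum_mul] at h1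
    exact (mul_eq_zero.1 h1).resolve_right (by exact_mod_cast hb.ne')
  | inr p =>
    obtain ⟨u, v⟩ := p
    have huv : u < v := by
      have := hz none
      rw [hn] at this
      exact this.1
    have hall : ∀ i, z i = Sum.inl u ∨ z i = Sum.inl v ∨ z i = Sum.inr (u, v) := by
      intro i
      refine eq_of_ind hal hbe hb huv (hz i) fun w hw hw' => hzero w ?_ i
      rw [hn]
      simp only [W, ind]
      rw [if_neg (by omega), if_neg (by omega), mul_zero, mul_zero, add_zero]
    -- the values of the combination
    have hu1 : W al be b (ind u) (Sum.inl u) = b := by simp [W, ind]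
    have hu2 : W al be b (ind u) (Sum.inl v) = 0 := by
      simp only [W, ind]
      rw [if_neg (by omega), mul_zero]
    have hu3 : W al be b (ind u) (Sum.inr (u, v)) = al := by
      simp only [W, ind, if_true]
      rw [if_neg (by omega)]
      simp
    have hv1 : W al be b (ind v) (Sum.inl u) = 0 := by
      simp only [W, ind]
      rw [if_neg (by omega), mul_zero]
    have hv2 : W al be b (ind v) (Sum.inl v) = b := by simp [W, ind]
    have hv3 : W al be b (ind v) (Sum.inr (u, v)) = be := by
      simp only [W, ind, if_true]
      rw [if_neg (by omega)]
      simp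
    have hD : ∑ i, (a i : ℤ) * (be * W al be b (ind u) (z (some i)) -
        al * W al be b (ind v) (z (some i))) = 0 := by
      have h1 := h' u
      have h2 := h' v
      rw [hn, hu3] at h1
      rw [hn, hv3] at h2
      have h3 : ∑ i, (a i : ℤ) * (be * W al be b (ind u) (z (some i)) -
          al * W al be b (ind v) (z (some i))) =
          be * ∑ i, (a i : ℤ) * W al be b (ind u) (z (some i)) -
          al * ∑ i, (a i : ℤ) * W al be b (ind v) (z (some i)) := by
        rw [Finset.mul_sum, Finset.mul_sum, ← Finset.sum_sub_distrib]
        refine Finset.sum_congr rfl fun i _ => ?_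
        ring
      rw [h3, h1, h2]
      ring
    have hbz : (b : ℤ) > 0 := by exact_mod_cast hb
    have halz : (al : ℤ) > 0 := by exact_mod_cast hal
    have hbez : (be : ℤ) > 0 := by exact_mod_cast hbe
    by_cases hu : ∃ i, z i = Sum.inl u
    · by_cases hv : ∃ i, z i = Sum.inl v
      · exact Or.inr ⟨u, v, rfl, hu, hv⟩
      · exfalso
        push Not at hv
        obtain ⟨i, hi⟩ := hu
        cases i with
        | none => rw [hn] at hi; exact absurd hi (by simp)
        | some i =>
          have hnn : ∀ i ∈ (univ : Finset (Fin l)), 0 ≤ (a i : ℤ) *
              (be * W al be b (ind u) (z (some i)) - al * W al be b (ind v) (z (some i))) := by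
            intro i _
            refine mul_nonneg (by positivity) ?_
            rcases hall (some i) with h1 | h1 | h1
            · rw [h1, hu1, hv1]
              nlinarith
            · exact absurd h1 (hv _)
            · rw [h1, hu3, hv3]
              linarith [mul_comm (be : ℤ) al]
          rw [Finset.sum_eq_zero_iff_of_nonneg hnn] at hD
          have h2 := hD i (mem_univ _)
          rw [hi, hu1, hv1, mul_zero, sub_zero] at h2
          have h3 : (a i : ℤ) > 0 := by exact_mod_cast ha i
          have : (a i : ℤ) * (be * b) > 0 := by positivity
          omega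
    · push Not at hu
      have hno : ∀ i, z i ≠ Sum.inl v := by
        intro i hi
        cases i with
        | none => rw [hn] at hi; exact absurd hi (by simp)
        | some i =>
          have hnn : ∀ i ∈ (univ : Finset (Fin l)), 0 ≤ (a i : ℤ) *
              -(be * W al be b (ind u) (z (some i)) - al * W al be b (ind v) (z (some i))) := by
            intro i _
            refine mul_nonneg (by positivity) ?_
            rcases hall (some i) with h1 | h1 | h1
            · exact absurd h1 (hu _)
            · rw [h1, hu2, hv2]
              nlinarith
            · rw [h1, hu3, hv3]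
              linarith [mul_comm (be : ℤ) al]
          have hD' : ∑ i, (a i : ℤ) * -(be * W al be b (ind u) (z (some i)) -
              al * W al be b (ind v) (z (some i))) = 0 := by
            simp only [mul_neg]
            rw [Finset.sum_neg_distrib, hD, neg_zero]
          rw [Finset.sum_eq_zero_iff_of_nonneg hnn] at hD'
          have h2 := hD' i (mem_univ _)
          rw [hi, hu2, hv2, mul_zero, zero_sub, neg_neg] at h2
          have h3 : (a i : ℤ) > 0 := by exact_mod_cast ha i
          have : (a i : ℤ) * (al * b) > 0 := by positivity
          omega
      left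
      have he : ∀ i, z i = Sum.inr (u, v) := by
        intro i
        rcases hall i with h1 | h1 | h1
        · exact absurd h1 (hu _)
        · exact absurd h1 (hno _)
        · exact h1
      refine ⟨fun i j => by rw [he i, he j], ?_⟩
      have h1 := h u
      unfold Lam at h1
      simp only [he, hu3] at h1
      rw [← Finset.sum_mul] at h1
      exact (mul_eq_zero.1 h1).resolve_right (by exact_mod_cast hal.ne')

end

end Pool.Agent.Q324.LF
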