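import Mathlib

/-!
# Solution-free sets: definitions

The equation is `a_1 x_1 + ... + a_ℓ x_ℓ = b y`. Its variables are indexed by `Option (Fin ℓ)`:
`some i` stands for `x_i` and `none` for `y`.
-/

namespace Pool.Agent.Q324.LF

/-- The coefficients `(a_1, ..., a_ℓ, -b)` of the equation written as `∑ c_i z_i = 0`. -/
def coef {l : ℕ} (a : Fin l → ℕ) (b : ℕ) : Option (Fin l) → ℤ
  | some i => (a i : ℤ)
  | none => -(b : ℤ)

/-- `z` is a solution of the equation. -/
def IsSol {l : ℕ} (a : Fin l → ℕ) (b : ℕ) (z : Option (Fin l) → ℤ) : Prop :=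
  ∑ i, coef a b i * z i = 0

/-- The solution `z` is trivial: the set of indices has a partition (into the classes
`{i | cls i = c}`) such that `z` is constant on every class and the coefficients of every class
sum to zero. -/
def IsTrivial {l : ℕ} (a : Fin l → ℕ) (b : ℕ) (z : Option (Fin l) → ℤ) : Prop :=
  ∃ cls : Option (Fin l) → ℕ, (∀ i j, cls i = cls j → z i = z j) ∧
    ∀ c, ∑ i with cls i = c, coef a b i = 0

/-- `S` is solution-free: every solution with entries in `S` is trivial. -/
def Free {l : ℕ} (a : Fin l → ℕ) (b : ℕ) (S : Finset ℤ) : Prop :=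
  ∀ z : Option (Fin l) → ℤ, (∀ i, z i ∈ S) → IsSol a b z → IsTrivial a b z

end Pool.Agent.Q324.LF
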