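import Pool.Agent.Q324.LF.Defs

/-!
# Generic integers of polynomial size
-/

namespace Pool.Agent.Q324.LF

open Finset

/-- the integer attached to `v` -/
def tt (d B v : ℕ) : ℕ := ∑ i ∈ range d, v ^ i * B ^ i

/-- Digits in a large base. -/
theorem digits_zero (B : ℕ) : ∀ (d : ℕ) (s : ℕ → ℤ), (∀ i < d, |s i| < B) →
    ∑ i ∈ range d, s i * (B : ℤ) ^ i = 0 → ∀ i < d, s i = 0
  | 0, _, _, _ => fun i hi => absurd hi (Nat.not_lt_zero i)
  | d + 1, s, hs, h => by
    rw [Finset.sum_range_succ'] at h
    have h1 : ∑ i ∈ range d, s (i + 1) * (B : ℤ) ^ (i + 1) =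
        (∑ i ∈ range d, s (i + 1) * (B : ℤ) ^ i) * B := by
      rw [Finset.sum_mul]
      refine Finset.sum_congr rfl fun i _ => ?_
      ring
    rw [h1, pow_zero, mul_one] at h
    have h2 : (B : ℤ) ∣ s 0 := ⟨-(∑ i ∈ range d, s (i + 1) * (B : ℤ) ^ i), by linarith⟩
    have h3 : s 0 = 0 := Int.eq_zero_of_abs_lt_dvd h2 (hs 0 (Nat.succ_pos d))
    have hB : (B : ℤ) ≠ 0 := by
      have := hs 0 (Nat.succ_pos d)
      have := abs_nonneg (s 0)
      omega
    rw [h3, add_zero] at h
    have h4 := (mul_eq_zero.1 h).resolve_right hB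
    have h5 := digits_zero B d (fun i => s (i + 1)) (fun i hi => hs (i + 1) (by omega)) h4
    intro i hi
    cases i with
    | zero => exact h3
    | succ i => exact h5 i (by omega)

/-- elements: vertices and edges -/
abbrev El : Type := ℕ ⊕ (ℕ × ℕ)

/-- the value of a function of vertices on an element -/
def W (al be b : ℕ) (f : ℕ → ℤ) : El → ℤ
  | Sum.inl v => b * f v
  | Sum.inr p => al * f p.1 + be * f p.2

/-- the vertices of an element are smaller than `n` -/
def Small (n : ℕ) : El → Prop
  | Sum.inl v => v < n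
  | Sum.inr p => p.1 < n ∧ p.2 < n

/-- the vertices of an element -/
def vert : El → Finset ℕ
  | Sum.inl v => {v}
  | Sum.inr p => {p.1, p.2}

theorem W_congr {al be b : ℕ} {f g : ℕ → ℤ} {z : El} (h : ∀ v ∈ vert z, f v = g v) :
    W al be b f z = W al be b g z := by
  cases z with
  | inl v => simp only [W]; rw [h v (by simp [vert])]
  | inr p => simp only [W]; rw [h p.1 (by simp [vert]), h p.2 (by simp [vert])]

/-- The linear functional defined by weighted elements. -/
def Lam {J : Type*} [Fintype J] (al be b : ℕ) (c : J → ℤ) (z : J → El) (f : ℕ → ℤ) : ℤ :=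
  ∑ j, c j * W al be b f (z j)

theorem W_add {al be b : ℕ} (f g : ℕ → ℤ) (z : El) :
    W al be b (fun v => f v + g v) z = W al be b f z + W al be b g z := by
  cases z <;> simp only [W] <;> ring

theorem W_smul {al be b : ℕ} (r : ℤ) (f : ℕ → ℤ) (z : El) :
    W al be b (fun v => r * f v) z = r * W al be b f z := by
  cases z <;> simp only [W] <;> ring

section

variable {J : Type*} [Fintype J] {al be b : ℕ} {c : J → ℤ} {z : J → El}

theorem Lam_add (f g : ℕ → ℤ) :
    Lam al be b c z (fun v => f v + g v) = Lam al be b c z f + Lam al be b c z g := by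
  unfold Lam
  rw [← Finset.sum_add_distrib]
  refine Finset.sum_congr rfl fun j _ => ?_
  rw [W_add]
  ring

theorem Lam_smul (r : ℤ) (f : ℕ → ℤ) :
    Lam al be b c z (fun v => r * f v) = r * Lam al be b c z f := by
  unfold Lam
  rw [Finset.mul_sum]
  refine Finset.sum_congr rfl fun j _ => ?_
  rw [W_smul]
  ring

theorem Lam_zero : Lam al be b c z (fun _ => 0) = 0 := by
  have := Lam_smul (al := al) (be := be) (b := b) (c := c) (z := z) 0 (fun _ => 0)
  simpa using this

theorem Lam_sum {ι : Type*} (s : Finset ι) (F : ι → ℕ → ℤ) :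
    Lam al be b c z (fun v => ∑ i ∈ s, F i v) = ∑ i ∈ s, Lam al be b c z (F i) := by
  classical
  induction s using Finset.induction_on with
  | empty => simpa using Lam_zero
  | insert i s hi ih =>
    simp only [Finset.sum_insert hi]
    rw [Lam_add, ih]

/-- If the functional vanishes on the first `d` powers, it vanishes on polynomials of degree
less than `d`. -/
theorem Lam_poly {d : ℕ} (h : ∀ i < d, Lam al be b c z (fun v => (v : ℤ) ^ i) = 0)
    (P : Polynomial ℤ) (hP : P.natDegree < d) : Lam al be b c z (fun v => P.eval (v : ℤ)) = 0 := by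
  have h1 : (fun v : ℕ => P.eval (v : ℤ)) =
      fun v : ℕ => ∑ i ∈ range (P.natDegree + 1), P.coeff i * (v : ℤ) ^ i := by
    funext v
    rw [Polynomial.eval_eq_sum_range]
  rw [h1, Lam_sum]
  refine Finset.sum_eq_zero fun i hi => ?_
  rw [Lam_smul, h i (by rw [Finset.mem_range] at hi; omega), mul_zero]

/-- Formal vanishing. -/
theorem Lam_indicator {d : ℕ} (h : ∀ i < d, Lam al be b c z (fun v => (v : ℤ) ^ i) = 0)
    (hd : 2 * Fintype.card J ≤ d) (w : ℕ) :
    Lam al be b c z (fun v => if v = w then 1 else 0) = 0 := by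
  classical
  let T : Finset ℕ := Finset.univ.biUnion fun j => vert (z j)
  have hT : ∀ j, vert (z j) ⊆ T := fun j => Finset.subset_biUnion_of_mem (fun j => vert (z j))
    (Finset.mem_univ j)
  have hcard : T.card ≤ d := by
    refine Finset.card_biUnion_le.trans ?_
    have h1 : ∀ j, (vert (z j)).card ≤ 2 := by
      intro j
      cases z j with
      | inl v => simp [vert]
      | inr p => exact (Finset.card_le_two)
    calc ∑ j, (vert (z j)).card ≤ ∑ _j : J, 2 := Finset.sum_le_sum fun j _ => h1 j
      _ = 2 * Fintype.card J := by simp [mul_comm]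
      _ ≤ d := hd
  by_cases hw : w ∈ T
  · let P : Polynomial ℤ := ∏ v ∈ T.erase w, (Polynomial.X - Polynomial.C (v : ℤ))
    have hdeg : P.natDegree < d := by
      have h1 : P.natDegree = (T.erase w).card := by
        simp only [P]
        rw [Polynomial.natDegree_prod_of_monic _ _ fun i _ => Polynomial.monic_X_sub_C _]
        rw [Finset.sum_congr rfl fun i _ => Polynomial.natDegree_X_sub_C _]
        rw [Finset.sum_const, smul_eq_mul, mul_one]
      rw [h1, Finset.card_erase_of_mem hw]
      have : 0 < T.card := Finset.card_pos.2 ⟨w, hw⟩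
      omega
    have h2 := Lam_poly h P hdeg
    have h3 : ∀ v ∈ T, P.eval (v : ℤ) = P.eval (w : ℤ) * (if v = w then 1 else 0) := by
      intro v hv
      by_cases hvw : v = w
      · rw [hvw]
        simp
      · simp only [if_neg hvw, mul_zero]
        simp only [P, Polynomial.eval_prod]
        refine Finset.prod_eq_zero (Finset.mem_erase.2 ⟨hvw, hv⟩) ?_
        simp
    have h4 : Lam al be b c z (fun v => P.eval (v : ℤ)) =
        Lam al be b c z (fun v => P.eval (w : ℤ) * (if v = w then 1 else 0)) := by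
      unfold Lam
      refine Finset.sum_congr rfl fun j _ => ?_
      rw [W_congr (fun v hv => h3 v (hT j hv))]
    rw [h2, Lam_smul] at h4
    have h5 : P.eval (w : ℤ) ≠ 0 := by
      simp only [P, Polynomial.eval_prod]
      rw [Finset.prod_ne_zero_iff]
      intro v hv
      simp only [Polynomial.eval_sub, Polynomial.eval_X, Polynomial.eval_C]
      have := (Finset.mem_erase.1 hv).1
      intro h6
      apply this
      have : (w : ℤ) = v := by linarith
      exact_mod_cast this.symm
    exact ((mul_eq_zero.1 h4.symm).resolve_left h5)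
  · unfold Lam
    refine Finset.sum_eq_zero fun j _ => ?_
    have h1 : W al be b (fun v => if v = w then 1 else 0) (z j) = W al be b (fun _ => 0) (z j) := by
      refine W_congr fun v hv => ?_
      rw [if_neg]
      rintro rfl
      exact hw (hT j hv)
    have h2 : W al be b (fun _ => 0) (z j) = 0 := by cases z j <;> simp [W]
    rw [h1, h2, mul_zero]

theorem W_abs_le {n : ℕ} {f : ℕ → ℤ} {M : ℤ} (hf : ∀ v < n, |f v| ≤ M) {x : El} (hx : Small n x) :
    |W al be b f x| ≤ (al + be + b) * M := by
  cases x with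
  | inl v =>
    have h1 := hf v hx
    have h0 : 0 ≤ M := (abs_nonneg _).trans h1
    simp only [W]
    rw [abs_mul, Nat.abs_cast]
    have h2 : (b : ℤ) * |f v| ≤ b * M := mul_le_mul_of_nonneg_left h1 (by positivity)
    have h3 : (0 : ℤ) ≤ (al + be) * M := by positivity
    linarith
  | inr p =>
    have h1 := hf p.1 hx.1
    have h2 := hf p.2 hx.2
    have h0 : 0 ≤ M := (abs_nonneg _).trans h1
    simp only [W]
    have h3 : |(al : ℤ) * f p.1 + be * f p.2| ≤ |(al : ℤ) * f p.1| + |(be : ℤ) * f p.2| :=
      abs_add_le _ _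
    rw [abs_mul, abs_mul, Nat.abs_cast, Nat.abs_cast] at h3
    have h4 : (al : ℤ) * |f p.1| ≤ al * M := mul_le_mul_of_nonneg_left h1 (by positivity)
    have h5 : (be : ℤ) * |f p.2| ≤ be * M := mul_le_mul_of_nonneg_left h2 (by positivity)
    have h6 : (0 : ℤ) ≤ b * M := by positivity
    linarith

/-- **Genericity.** -/
theorem generic {n d B : ℕ} (hsmall : ∀ j, Small n (z j)) (hd : 2 * Fintype.card J ≤ d)
    (hB : (∑ j, |c j|) * ((al + be + b) * (n : ℤ) ^ d) < B)
    (h : Lam al be b c z (fun v => (tt d B v : ℤ)) = 0) (w : ℕ) :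
    Lam al be b c z (fun v => if v = w then 1 else 0) = 0 := by
  refine Lam_indicator (d := d) ?_ hd w
  by_cases hn : n = 0
  · subst hn
    intro i _
    unfold Lam
    refine Finset.sum_eq_zero fun j _ => ?_
    have := hsmall j
    cases hz : z j with
    | inl v => rw [hz] at this; exact absurd this (Nat.not_lt_zero v)
    | inr p => rw [hz] at this; exact absurd this.1 (Nat.not_lt_zero _)
  have h1 : Lam al be b c z (fun v => (tt d B v : ℤ)) =
      ∑ i ∈ range d, Lam al be b c z (fun v => (v : ℤ) ^ i) * (B : ℤ) ^ i := by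
    have h2 : (fun v : ℕ => (tt d B v : ℤ)) =
        fun v : ℕ => ∑ i ∈ range d, (B : ℤ) ^ i * (v : ℤ) ^ i := by
      funext v
      unfold tt
      push_cast
      refine Finset.sum_congr rfl fun i _ => ?_
      ring
    rw [h2, Lam_sum]
    refine Finset.sum_congr rfl fun i _ => ?_
    rw [Lam_smul]
    ring
  rw [h1] at h
  refine digits_zero B d _ ?_ h
  intro i hi
  refine lt_of_le_of_lt ?_ hB
  unfold Lam
  refine (Finset.abs_sum_le_sum_abs _ _).trans ?_
  rw [Finset.sum_mul]
  refine Finset.sum_le_sum fun j _ => ?_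
  rw [abs_mul]
  refine mul_le_mul_of_nonneg_left ?_ (abs_nonneg _)
  refine W_abs_le (fun v hv => ?_) (hsmall j)
  rw [abs_of_nonneg (by positivity)]
  have h2 : (v : ℤ) ^ i ≤ (n : ℤ) ^ i := by
    apply pow_le_pow_left₀ (by positivity)
    exact_mod_cast hv.le
  refine h2.trans ?_
  apply pow_le_pow_right₀ _ hi.le
  exact_mod_cast Nat.one_le_iff_ne_zero.2 hn

end

end Pool.Agent.Q324.LF
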