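import Pool.Agent.Q324.LF.Comb

/-!
# Large solution-free subsets and independent sets
-/

namespace Pool.Agent.Q324.LF

open Finset

/-- the base -/
def base (K n d : ℕ) : ℕ := K * (K * n ^ d) + 1

/-- the integer of an element -/
def val (al be b n d : ℕ) (x : El) : ℤ :=
  W al be b (fun v => (tt d (base (al + be + b) n d) v : ℤ)) x

section

variable {l : ℕ} {a : Fin l → ℕ} {b al be n d : ℕ}

theorem val_inj (hb : 0 < b) (hal : 0 < al) (hbe : 0 < be)
    (hd : 4 ≤ d) {x y : El} (hx : Good n x) (hy : Good n y)
    (h : val al be b n d x = val al be b n d y) : x = y := by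
  refine formal_inj hal hbe hb hx hy fun w => ?_
  have key := generic (al := al) (be := be) (b := b) (J := Bool)
    (c := fun t => if t then 1 else -1) (z := fun t => if t then x else y) (n := n) (d := d)
    (B := base (al + be + b) n d) ?_ ?_ ?_ ?_ w
  · unfold Lam at key
    simp only [Fintype.sum_bool, if_true, Bool.false_eq_true, if_false] at key
    change 1 * W al be b (ind w) x + -1 * W al be b (ind w) y = 0 at key
    linarith
  · intro t
    cases t
    · exact hy.small
    · exact hx.small
  · simpa using hd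
  · simp only [Fintype.sum_bool, if_true, Bool.false_eq_true, if_false]
    unfold base
    push_cast
    have h1 : (2 : ℤ) ≤ al + be + b := by omega
    have h2 : (0 : ℤ) ≤ (al + be + b) * (n : ℤ) ^ d := by positivity
    have h3 := mul_le_mul_of_nonneg_right h1 h2
    norm_num
    linarith
  · unfold Lam
    simp only [Fintype.sum_bool, if_true, Bool.false_eq_true, if_false]
    unfold val at h
    rw [h]
    ring

theorem formal_of_sol (hb : 0 < b) (hab : ∑ i, a i = al + be)
    (hd : 2 * (l + 1) ≤ d) {z : Option (Fin l) → El} (hz : ∀ i, Good n (z i))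
    (h : IsSol a b (fun i => val al be b n d (z i))) (w : ℕ) :
    Lam al be b (coef a b) z (ind w) = 0 := by
  have hs : ∑ i, |coef a b i| = al + be + b := by
    rw [Fintype.sum_option]
    simp only [coef, abs_neg, Nat.abs_cast]
    have : ∑ i, (a i : ℤ) = al + be := by
      rw [← Nat.cast_sum, hab]
      push_cast
      ring
    rw [this]
    ring
  refine generic (B := base (al + be + b) n d) (d := d) (n := n) (fun j => (hz j).small) ?_ ?_ h w
  · rw [Fintype.card_option, Fintype.card_fin]
    exact hd
  · rw [hs]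
    unfold base
    push_cast
    linarith

theorem nontrivial_triple (ha : ∀ i, 0 < a i) (hb : 0 < b) (i₀ : Fin l) (hal : a i₀ = al)
    (hab : ∑ i, a i = al + be) (hbe : 0 < be) (hd : 4 ≤ d) {u v : ℕ} (huv : u < v) (hv : v < n)
    {S : Finset ℤ} (h1 : val al be b n d (Sum.inr (u, v)) ∈ S)
    (h2 : val al be b n d (Sum.inl u) ∈ S) (h3 : val al be b n d (Sum.inl v) ∈ S) :
    ¬ Free a b S := by
  classical
  have hal0 : 0 < al := hal ▸ ha i₀
  intro hF
  have gu : Good n (Sum.inl u) := huv.trans hv
  have gv : Good n (Sum.inl v) := hv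
  have ge : Good n (Sum.inr (u, v)) := ⟨huv, hv⟩
  let y : Option (Fin l) → El := fun i => i.elim (Sum.inr (u, v))
    fun i => if i = i₀ then Sum.inl u else Sum.inl v
  have hS : ∀ i, val al be b n d (y i) ∈ S := by
    intro i
    cases i with
    | none => exact h1
    | some i =>
      simp only [y, Option.elim]
      split_ifs
      · exact h2
      · exact h3
  have hsol : IsSol a b (fun i => val al be b n d (y i)) := by
    unfold IsSol
    rw [Fintype.sum_option]
    simp only [coef, y, Option.elim]
    have h4 : ∀ i, (a i : ℤ) * val al be b n d (if i = i₀ then Sum.inl u else Sum.inl v) =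
        (if i = i₀ then (a i : ℤ) * (val al be b n d (Sum.inl u) - val al be b n d (Sum.inl v))
          else 0) + (a i : ℤ) * val al be b n d (Sum.inl v) := by
      intro i
      split_ifs <;> ring
    rw [Finset.sum_congr rfl fun i _ => h4 i, Finset.sum_add_distrib, Finset.sum_ite_eq',
      if_pos (mem_univ _), ← Finset.sum_mul]
    have h5 : ∑ i, (a i : ℤ) = al + be := by
      rw [← Nat.cast_sum, hab]
      push_cast
      ring
    rw [h5, hal]
    unfold val W
    ring
  obtain ⟨cls, hc1, hc2⟩ := hF _ hS hsol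
  have h6 := hc2 (cls none)
  have h7 : (univ.filter fun i => cls i = cls none) = {none} := by
    ext i
    simp only [mem_filter, mem_univ, true_and, mem_singleton]
    constructor
    · intro hi
      cases i with
      | none => rfl
      | some i =>
        exfalso
        have h8 := hc1 _ _ hi
        simp only [y, Option.elim] at h8
        split_ifs at h8
        · exact absurd (val_inj hb hal0 hbe hd gu ge h8) (by simp)
        · exact absurd (val_inj hb hal0 hbe hd gv ge h8) (by simp)
    · rintro rfl
      rfl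
  rw [h7, Finset.sum_singleton] at h6
  simp only [coef] at h6
  omega

theorem free_of_no_triple (ha : ∀ i, 0 < a i) (hb : 0 < b) (hal : 0 < al) (hbe : 0 < be)
    (hab : ∑ i, a i = al + be) (hd : 2 * (l + 1) ≤ d) {S : Finset ℤ} {T : Finset El}
    (hT : ∀ x ∈ T, Good n x) (hS : ∀ s ∈ S, ∃ x ∈ T, val al be b n d x = s)
    (h : ∀ u v, Sum.inr (u, v) ∈ T → Sum.inl u ∈ T → Sum.inl v ∈ T → False) :
    Free a b S := by
  intro z hz hsol
  choose y hyT hy using fun i => hS _ (hz i)
  have hsol' : IsSol a b (fun i => val al be b n d (y i)) := by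
    simp only [hy]
    exact hsol
  rcases formal_cases ha hb hal hbe (fun i => hT _ (hyT i))
    (formal_of_sol hb hab hd (fun i => hT _ (hyT i)) hsol') with h1 | h1
  · refine ⟨fun _ => 0, fun i j _ => ?_, fun c => ?_⟩
    · rw [← hy i, ← hy j, h1.1 i j]
    · by_cases hc : (0 : ℕ) = c
      · simp only [hc, Finset.filter_true]
        exact h1.2
      · simp [hc]
  · obtain ⟨u, v, h2, ⟨i, hi⟩, j, hj⟩ := h1
    exact absurd (h u v (by rw [← h2]; exact hyT _) (by rw [← hi]; exact hyT _)
      (by rw [← hj]; exact hyT _)) (by simp)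

/-- the elements of a graph -/
def els (n : ℕ) (E : Finset (ℕ × ℕ)) : Finset El := (range n).disjSum E

theorem good_of_mem_els {E : Finset (ℕ × ℕ)} (hE : ∀ e ∈ E, e.1 < e.2 ∧ e.2 < n) {x : El}
    (hx : x ∈ els n E) : Good n x := by
  unfold els at hx
  rw [Finset.mem_disjSum] at hx
  rcases hx with ⟨v, hv, rfl⟩ | ⟨e, he, rfl⟩
  · exact mem_range.1 hv
  · exact hE e he

/-- The combinatorial equivalence. -/
theorem large_iff (ha : ∀ i, 0 < a i) (hb : 0 < b) (i₀ : Fin l) (hal : a i₀ = al)
    (hab : ∑ i, a i = al + be) (hbe : 0 < be) (hd : 2 * (l + 1) ≤ d) {E : Finset (ℕ × ℕ)}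
    (hE : ∀ e ∈ E, e.1 < e.2 ∧ e.2 < n) (m : ℕ) :
    (∃ S : Finset ℤ, (∀ s ∈ S, ∃ x ∈ els n E, val al be b n d x = s) ∧ Free a b S ∧
      E.card + m ≤ S.card) ↔
    ∃ I ⊆ range n, (∀ e ∈ E, e.1 ∈ I → e.2 ∈ I → False) ∧ m ≤ I.card := by
  classical
  have hal0 : 0 < al := hal ▸ ha i₀
  have hl : 0 < l := Fin.pos i₀
  have hd4 : 4 ≤ d := by omega
  have hinj : Set.InjOn (val al be b n d) (els n E : Set El) := fun x hx y hy h =>
    val_inj hb hal0 hbe hd4 (good_of_mem_els hE hx) (good_of_mem_els hE hy) h
  constructor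
  · rintro ⟨S, hS, hF, hc⟩
    -- pull back
    let T : Finset El := (els n E).filter fun x => val al be b n d x ∈ S
    have hTS : T.image (val al be b n d) = S := by
      ext s
      simp only [T, mem_image, mem_filter]
      constructor
      · rintro ⟨x, ⟨_, hx⟩, rfl⟩
        exact hx
      · intro hs
        obtain ⟨x, hx, rfl⟩ := hS s hs
        exact ⟨x, ⟨hx, hs⟩, rfl⟩
    have hTc : T.card = S.card := by
      rw [← hTS, Finset.card_image_of_injOn]
      exact hinj.mono (Finset.coe_subset.2 (Finset.filter_subset _ _))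
    let SV : Finset ℕ := (range n).filter fun v => val al be b n d (Sum.inl v) ∈ S
    let SE : Finset (ℕ × ℕ) := E.filter fun e => val al be b n d (Sum.inr e) ∈ S
    have hT' : T = SV.disjSum SE := by
      ext x
      cases x with
      | inl v => simp [T, els, SV]
      | inr e => simp [T, els, SE]
    have hTc' : T.card = SV.card + SE.card := by
      rw [hT', Finset.card_disjSum]
    let F : Finset (ℕ × ℕ) := E.filter fun e => e.1 ∈ SV ∧ e.2 ∈ SV
    have hFSE : Disjoint F SE := by
      rw [Finset.disjoint_left]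
      intro e he he'
      simp only [F, SE, mem_filter] at he he'
      have h1 := hE e he.1
      exact nontrivial_triple ha hb i₀ hal hab hbe hd4 h1.1 h1.2 he'.2 (mem_filter.1 he.2.1).2
        (mem_filter.1 he.2.2).2 hF
    have hcE : F.card + SE.card ≤ E.card := by
      rw [← Finset.card_union_of_disjoint hFSE]
      exact Finset.card_le_card (Finset.union_subset (Finset.filter_subset _ _)
        (Finset.filter_subset _ _))
    refine ⟨SV \ F.image Prod.fst, fun v hv => ?_, ?_, ?_⟩
    · exact (mem_filter.1 (mem_sdiff.1 hv).1).1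
    · intro e he h1 h2
      rw [mem_sdiff] at h1 h2
      refine h1.2 (mem_image.2 ⟨e, ?_, rfl⟩)
      exact mem_filter.2 ⟨he, h1.1, h2.1⟩
    · have h1 := Finset.le_card_sdiff (F.image Prod.fst) SV
      have h2 : (F.image Prod.fst).card ≤ F.card := Finset.card_image_le
      omega
  · rintro ⟨I, hI, hind, hc⟩
    have hsub : I.disjSum E ⊆ els n E := by
      intro x hx
      unfold els
      rw [Finset.mem_disjSum] at hx ⊢
      rcases hx with ⟨v, hv, rfl⟩ | ⟨e, he, rfl⟩
      · exact Or.inl ⟨v, hI hv, rfl⟩
      · exact Or.inr ⟨e, he, rfl⟩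
    refine ⟨(I.disjSum E).image (val al be b n d), ?_, ?_, ?_⟩
    · intro s hs
      obtain ⟨x, hx, rfl⟩ := mem_image.1 hs
      exact ⟨x, hsub hx, rfl⟩
    · refine free_of_no_triple (T := I.disjSum E) (n := n) (d := d) ha hb hal0 hbe hab hd
        (fun x hx => good_of_mem_els hE (hsub hx)) (fun s hs => by simpa using hs) ?_
      intro u v h1 h2 h3
      simp only [Finset.inr_mem_disjSum, Finset.inl_mem_disjSum] at h1 h2 h3
      exact hind _ h1 h2 h3
    · rw [Finset.card_image_of_injOn (hinj.mono (by exact_mod_cast hsub)), Finset.card_disjSum]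
      omega

end

end Pool.Agent.Q324.LF
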