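import Pool.Agent.Q324.LF.Graph
import Pool.Agent.Q324.CN.Main

/-!
# Strong NP-hardness
-/

namespace Pool.Agent.Q324.LF

open Pool.Agent.NPC Pool.Agent.Q324.CN

/-- The instance has no repeated element, and its elements are bounded by the value of the
polynomial `p` at the number of elements. -/
def BoundedInst (p : Polynomial ℕ) (I : List ℤ × ℕ) : Prop :=
  I.1.Nodup ∧ ∀ x ∈ I.1, x.natAbs ≤ p.eval I.1.length

/-- The set of elements of the list contains a solution-free subset of the given size. -/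
def HasFree {l : ℕ} (a : Fin l → ℕ) (b : ℕ) (I : List ℤ × ℕ) : Prop :=
  ∃ S : Finset ℤ, (∀ s ∈ S, s ∈ I.1) ∧ Free a b S ∧ I.2 ≤ S.card

/-- the edges of the conflict graph of a formula -/
def edges (φ : Φ) : List (ℕ × ℕ) :=
  ((List.range (3 * φ.length)) ×ˢ (List.range (3 * φ.length))).filter
    fun e => decide (e.1 < e.2) && adjg φ 0 0 e.1 e.2

theorem mem_edges {φ : Φ} {e : ℕ × ℕ} : e ∈ edges φ ↔
    e.1 < e.2 ∧ e.2 < 3 * φ.length ∧ adjg φ 0 0 e.1 e.2 = true := by
  obtain ⟨x, y⟩ := e
  unfold edges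
  rw [List.mem_filter, List.mem_product, List.mem_range, List.mem_range, Bool.and_eq_true,
    decide_eq_true_eq]
  constructor
  · rintro ⟨⟨_, h2⟩, h3, h4⟩
    exact ⟨h3, h2, h4⟩
  · rintro ⟨h1, h2, h3⟩
    exact ⟨⟨h1.trans h2, h2⟩, h1, h3⟩

theorem nodup_edges (φ : Φ) : (edges φ).Nodup :=
  (List.Nodup.product List.nodup_range List.nodup_range).filter _

theorem sat_iff_indep (φ : Φ) : SAT3 φ ↔ ∃ I ⊆ Finset.range (3 * φ.length),
    (∀ e ∈ (edges φ).toFinset, e.1 ∈ I → e.2 ∈ I → False) ∧ φ.length ≤ I.card := by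
  constructor
  · intro h
    obtain ⟨f, hf1, hf2, hf3⟩ := exists_choice (N := 3 * φ.length) h le_rfl
    refine ⟨Finset.univ.image fun j => (f j).1, ?_, ?_, ?_⟩
    · intro v hv
      obtain ⟨j, _, rfl⟩ := Finset.mem_image.1 hv
      exact Finset.mem_range.2 (hf2 j)
    · intro e he h1 h2
      obtain ⟨j, _, hj⟩ := Finset.mem_image.1 h1
      obtain ⟨j', _, hj'⟩ := Finset.mem_image.1 h2
      rw [List.mem_toFinset, mem_edges, adjg_iff] at he
      obtain ⟨h3, _, _, h4⟩ := he
      rcases h4 with h4 | ⟨_, _, h4 | ⟨h4, h5⟩⟩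
      · exact h4 rfl
      · rw [← hj, ← hj', hf1, hf1] at h4
        have : j = j' := Fin.ext h4
        rw [← hj, ← hj', this] at h3
        exact lt_irrefl _ h3
      · rw [← hj, ← hj'] at h4 h5
        exact h5 (hf3 j j' h4)
    · rw [Finset.card_image_of_injective, Finset.card_univ, Fintype.card_fin]
      intro j j' hjj
      apply Fin.ext
      rw [← hf1 j, ← hf1 j']
      simp only at hjj
      rw [hjj]
  · rintro ⟨I, hI, hE, hc⟩
    refine sat_of_indep (g := fun _ => 0) (N := 3 * φ.length) (I := {i | i.1 ∈ I}) ?_ ?_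
    · intro x hx y hy hxy
      have hxy' := hxy
      rw [gg_adj] at hxy
      rcases lt_or_gt_of_ne hxy.1 with h1 | h1
      · exact hE (x.1, y.1) (List.mem_toFinset.2 (mem_edges.2 ⟨h1, y.2, hxy'⟩)) hx hy
      · exact hE (y.1, x.1) (List.mem_toFinset.2 (mem_edges.2 ⟨h1, x.2, hxy'.symm⟩)) hy hx
    · have h1 : ({i : Fin (3 * φ.length) | i.1 ∈ I} ∩ {i | i.1 < 3 * φ.length}).ncard = I.card := by
        rw [← Set.ncard_image_of_injective _ Fin.val_injective, ← Set.ncard_coe_finset]
        congr 1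
        ext v
        simp only [Set.mem_image, Set.mem_inter_iff, Set.mem_setOf_eq, Finset.mem_coe]
        constructor
        · rintro ⟨i, ⟨hi, _⟩, rfl⟩
          exact hi
        · intro hv
          exact ⟨⟨v, Finset.mem_range.1 (hI hv)⟩, ⟨hv, Finset.mem_range.1 (hI hv)⟩, rfl⟩
      rw [h1]
      exact hc

/-- the integers of the instance -/
def nums (al be b d : ℕ) (φ : Φ) : List ℤ :=
  (List.range (3 * φ.length)).map (fun v =>
    ((b * tt d (base (al + be + b) (3 * φ.length) d) v : ℕ) : ℤ)) ++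
  (edges φ).map (fun e => ((al * tt d (base (al + be + b) (3 * φ.length) d) e.1 +
    be * tt d (base (al + be + b) (3 * φ.length) d) e.2 : ℕ) : ℤ))

theorem nums_eq (al be b d : ℕ) (φ : Φ) : nums al be b d φ =
    ((List.range (3 * φ.length)).map Sum.inl ++ (edges φ).map Sum.inr).map
      (val al be b (3 * φ.length) d) := by
  unfold nums
  rw [List.map_append, List.map_map, List.map_map]
  refine congrArg₂ _ (List.map_congr_left fun v _ => ?_) (List.map_congr_left fun v _ => ?_)
  · simp only [Function.comp, val, W]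
    push_cast
    rfl
  · simp only [Function.comp, val, W]
    push_cast
    rfl

theorem mem_els {φ : Φ} {x : El} :
    x ∈ (List.range (3 * φ.length)).map Sum.inl ++ (edges φ).map Sum.inr ↔
      x ∈ els (3 * φ.length) (edges φ).toFinset := by
  unfold els
  rw [Finset.mem_disjSum, List.mem_append, List.mem_map, List.mem_map]
  simp only [List.mem_range, Finset.mem_range, List.mem_toFinset]

theorem mem_nums {al be b d : ℕ} {φ : Φ} {s : ℤ} : s ∈ nums al be b d φ ↔
    ∃ x ∈ els (3 * φ.length) (edges φ).toFinset, val al be b (3 * φ.length) d x = s := by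
  rw [nums_eq, List.mem_map]
  simp only [mem_els]

theorem hE (φ : Φ) : ∀ e ∈ (edges φ).toFinset, e.1 < e.2 ∧ e.2 < 3 * φ.length := by
  intro e he
  rw [List.mem_toFinset, mem_edges] at he
  exact ⟨he.1, he.2.1⟩

theorem nodup_nums {al be b d : ℕ} (hb : 0 < b) (hal : 0 < al) (hbe : 0 < be) (hd : 4 ≤ d)
    (φ : Φ) : (nums al be b d φ).Nodup := by
  rw [nums_eq]
  refine List.Nodup.map_on ?_ ?_
  · intro x hx y hy h
    exact val_inj hb hal hbe hd (good_of_mem_els (hE φ) (mem_els.1 hx))
      (good_of_mem_els (hE φ) (mem_els.1 hy)) h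
  · rw [List.nodup_append']
    refine ⟨List.nodup_range.map Sum.inl_injective, (nodup_edges φ).map Sum.inr_injective, ?_⟩
    intro x hx hy
    obtain ⟨v, _, rfl⟩ := List.mem_map.1 hx
    obtain ⟨e, _, he⟩ := List.mem_map.1 hy
    exact absurd he (by simp)

/-- the bounding polynomial -/
noncomputable def bd (K d : ℕ) : Polynomial ℕ :=
  Polynomial.C K * (Polynomial.C d * (Polynomial.X ^ d *
    (Polynomial.C K * (Polynomial.C K * Polynomial.X ^ d) + 1) ^ d))

theorem bd_eval (K d x : ℕ) : (bd K d).eval x = K * (d * (x ^ d * base K x d ^ d)) := by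
  simp [bd, base]

theorem tt_le {d B v n : ℕ} (hv : v < n) (hB : 0 < B) : tt d B v ≤ d * (n ^ d * B ^ d) := by
  unfold tt
  refine (Finset.sum_le_card_nsmul _ _ (n ^ d * B ^ d) fun i hi => ?_).trans ?_
  · rw [Finset.mem_range] at hi
    refine Nat.mul_le_mul ?_ (Nat.pow_le_pow_right hB hi.le)
    exact (Nat.pow_le_pow_left hv.le i).trans (Nat.pow_le_pow_right (by omega) hi.le)
  · rw [Finset.card_range, smul_eq_mul]

theorem nums_bd {al be b d : ℕ} (φ : Φ) : ∀ x ∈ nums al be b d φ,
    x.natAbs ≤ (bd (al + be + b) d).eval (nums al be b d φ).length := by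
  intro x hx
  have hB : 0 < base (al + be + b) (3 * φ.length) d := Nat.succ_pos _
  have h0 : x.natAbs ≤ (bd (al + be + b) d).eval (3 * φ.length) := by
    rw [bd_eval]
    unfold nums at hx
    rcases List.mem_append.1 hx with h | h
    · obtain ⟨v, hv, rfl⟩ := List.mem_map.1 h
      rw [Int.natAbs_natCast]
      exact Nat.mul_le_mul (by omega) (tt_le (List.mem_range.1 hv) hB)
    · obtain ⟨e, he, rfl⟩ := List.mem_map.1 h
      rw [Int.natAbs_natCast]
      have h1 := mem_edges.1 he
      have h2 := tt_le (d := d) (h1.1.trans h1.2.1) hB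
      have h3 := tt_le (d := d) h1.2.1 hB
      have h4 := Nat.mul_le_mul (le_refl al) h2
      have h5 := Nat.mul_le_mul (le_refl be) h3
      rw [add_mul, add_mul]
      omega
  refine h0.trans ?_
  have hlen : 3 * φ.length ≤ (nums al be b d φ).length := by
    unfold nums
    rw [List.length_append, List.length_map, List.length_range]
    omega
  rw [bd_eval, bd_eval]
  have hbase : base (al + be + b) (3 * φ.length) d ≤
      base (al + be + b) (nums al be b d φ).length d := by
    unfold base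
    have := Nat.pow_le_pow_left hlen d
    gcongr
  gcongr

/-! ### Polynomial time -/

theorem pow_poly {α : Type} [TEnc α] {f : α → ℕ} (hf : Poly f) (k : ℕ) :
    Poly (fun a => f a ^ k) := by
  induction k with
  | zero => simpa using NPC.Poly.const 1
  | succ k ih => simpa only [pow_succ] using NPC.Poly.mul ih hf

theorem tt_poly {α : Type} [TEnc α] {B v : α → ℕ} (hB : Poly B) (hv : Poly v) (d : ℕ) :
    Poly (fun a => tt d (B a) (v a)) := by
  unfold tt
  induction d with
  | zero => simpa using NPC.Poly.const 0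
  | succ d ih =>
    simp only [Finset.sum_range_succ]
    exact NPC.Poly.add ih (NPC.Poly.mul (pow_poly hv d) (pow_poly hB d))

theorem base_poly {α : Type} [TEnc α] {n : α → ℕ} (hn : Poly n) (K d : ℕ) :
    Poly (fun a => base K (n a) d) := by
  unfold base
  have := pow_poly hn d
  fun_prop

attribute [fun_prop] tt_poly base_poly

theorem range_poly {α : Type} [TEnc α] {φ : α → Φ} (hφ : Poly φ) :
    Poly (fun a => List.range (3 * (φ a).length)) :=
  UPoly.range (UPoly.mul (UPoly.const 3) (UPoly.length hφ))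

attribute [fun_prop] range_poly

theorem edges_poly {α : Type} [TEnc α] {φ : α → Φ} (hφ : Poly φ) :
    Poly (fun a => edges (φ a)) := by
  unfold edges
  fun_prop

attribute [fun_prop] edges_poly

theorem nums_poly (al be b d : ℕ) : Poly (nums al be b d) := by
  unfold nums
  fun_prop

/-- Hardness, with all instances produced satisfying the promise. -/
theorem hardPr_free {l : ℕ} (hl : 2 ≤ l) {a : Fin l → ℕ} (ha : ∀ i, 0 < a i) {b : ℕ}
    (hb : 0 < b) : ∃ p : Polynomial ℕ, HardPr (BoundedInst p) (HasFree a b) := by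
  classical
  let i₀ : Fin l := ⟨0, by omega⟩
  let i₁ : Fin l := ⟨1, by omega⟩
  have hne : i₁ ≠ i₀ := by
    intro h
    have := congrArg Fin.val h
    simp [i₀, i₁] at this
  have hab : ∑ i, a i = a i₀ + ∑ i ∈ Finset.univ.erase i₀, a i :=
    (Finset.add_sum_erase _ _ (Finset.mem_univ i₀)).symm
  have hbe : 0 < ∑ i ∈ Finset.univ.erase i₀, a i :=
    Finset.sum_pos (fun i _ => ha i) ⟨i₁, Finset.mem_erase.2 ⟨hne, Finset.mem_univ _⟩⟩
  generalize ∑ i ∈ Finset.univ.erase i₀, a i = be at hab hbe
  refine ⟨bd (a i₀ + be + b) (2 * (l + 1)), hardPr_two.trans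
    (f := fun φ => (nums (a i₀) be b (2 * (l + 1)) φ, (edges φ).length + φ.length)) ?_ ?_ ?_⟩
  · exact NPC.Poly.pair (nums_poly _ _ _ _) (by fun_prop)
  · intro φ _
    exact ⟨nodup_nums hb (ha i₀) hbe (by omega) φ, nums_bd φ⟩
  · intro φ _
    rw [sat_iff_indep, ← large_iff (al := a i₀) (be := be) (d := 2 * (l + 1)) ha hb i₀ rfl hab hbe
      le_rfl (hE φ) φ.length]
    unfold HasFree
    simp only [mem_nums]
    rw [List.toFinset_card_of_nodup (nodup_edges φ)]

end Pool.Agent.Q324.LF
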